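import Pool.Agent.Helper94.PQ.StmtsT

/-!
# Induction from a subgroup of index two
-/

set_option autoImplicit false

open scoped Classical

namespace PQ87

open PQ BKA Pool.Agent.Helper13.Swan

section lin

variable {k M N : Type} [Field k] [AddCommGroup M] [Module k M] [AddCommGroup N] [Module k N]

theorem det_of_comm (f : M →ₗ[k] M) (g : N →ₗ[k] N) (e : M ≃ₗ[k] N)
    (h : ∀ x, g (e x) = e (f x)) : LinearMap.det g = LinearMap.det f := by
  have h1 : g = (e : M →ₗ[k] N) ∘ₗ f ∘ₗ (e.symm : N →ₗ[k] M) := by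
    ext y
    simp only [LinearMap.comp_apply, LinearEquiv.coe_coe]
    rw [← h, LinearEquiv.apply_symm_apply]
  rw [h1, LinearMap.det_conj]

theorem trace_of_comm (f : M →ₗ[k] M) (g : N →ₗ[k] N) (e : M ≃ₗ[k] N)
    (h : ∀ x, g (e x) = e (f x)) : LinearMap.trace k N g = LinearMap.trace k M f := by
  have h1 : g = e.conj f := by
    ext y
    rw [LinearEquiv.conj_apply_apply, ← h, LinearEquiv.apply_symm_apply]
  rw [h1, LinearMap.trace_conj']

end lin

section swap

variable (k W : Type) [Field k] [AddCommGroup W] [Module k W]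

/-- the exchange of the two factors -/
def swp : (W × W) →ₗ[k] (W × W) := (LinearMap.snd k W W).prod (LinearMap.fst k W W)

variable [CharZero k]

theorem det_swp [FiniteDimensional k W] : LinearMap.det (swp k W) = (-1) ^ Module.finrank k W := by
  let e : (W × W) ≃ₗ[k] (W × W) :=
    { toFun := fun p => (p.1 + p.2, p.1 - p.2)
      invFun := fun p => ((2 : k)⁻¹ • (p.1 + p.2), (2 : k)⁻¹ • (p.1 - p.2))
      map_add' := by
        intro p q
        ext
        · simp only [Prod.fst_add, Prod.snd_add]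
          abel
        · simp only [Prod.fst_add, Prod.snd_add]
          abel
      map_smul' := by
        intro a p
        ext
        · simp only [Prod.smul_fst, Prod.smul_snd, RingHom.id_apply, smul_add]
        · simp only [Prod.smul_fst, Prod.smul_snd, RingHom.id_apply, smul_sub]
      left_inv := by
        intro p
        have h2 : (2 : k) ≠ 0 := two_ne_zero
        ext
        · show (2 : k)⁻¹ • ((p.1 + p.2) + (p.1 - p.2)) = p.1
          have h3 : (p.1 + p.2) + (p.1 - p.2) = (2 : k) • p.1 := by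
            rw [two_smul]; abel
          rw [h3, smul_smul, inv_mul_cancel₀ h2, one_smul]
        · show (2 : k)⁻¹ • ((p.1 + p.2) - (p.1 - p.2)) = p.2
          have h3 : (p.1 + p.2) - (p.1 - p.2) = (2 : k) • p.2 := by
            rw [two_smul]; abel
          rw [h3, smul_smul, inv_mul_cancel₀ h2, one_smul]
      right_inv := by
        intro p
        have h2 : (2 : k) ≠ 0 := two_ne_zero
        ext
        · show (2 : k)⁻¹ • (p.1 + p.2) + (2 : k)⁻¹ • (p.1 - p.2) = p.1
          rw [← smul_add]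
          have h3 : (p.1 + p.2) + (p.1 - p.2) = (2 : k) • p.1 := by
            rw [two_smul]; abel
          rw [h3, smul_smul, inv_mul_cancel₀ h2, one_smul]
        · show (2 : k)⁻¹ • (p.1 + p.2) - (2 : k)⁻¹ • (p.1 - p.2) = p.2
          rw [← smul_sub]
          have h3 : (p.1 + p.2) - (p.1 - p.2) = (2 : k) • p.2 := by
            rw [two_smul]; abel
          rw [h3, smul_smul, inv_mul_cancel₀ h2, one_smul] }
  have h1 := det_of_comm (swp k W) (LinearMap.prodMap (1 : Module.End k W) (-1 : Module.End k W)) e (by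
    intro p
    apply Prod.ext
    · show p.1 + p.2 = p.2 + p.1
      abel
    · show -(p.1 - p.2) = p.2 - p.1
      abel)
  rw [← h1, LinearMap.det_prodMap, map_one, one_mul]
  have h2 : (-1 : Module.End k W) = (-1 : k) • (1 : Module.End k W) := by
    rw [neg_smul, one_smul]
  rw [h2, LinearMap.det_smul, map_one, mul_one]

theorem trace_swp (T : (W × W) →ₗ[k] (W × W)) (A B : W →ₗ[k] W)
    (hT : ∀ x y, T (x, y) = (A y, B x)) : LinearMap.trace k (W × W) T = 0 := by
  let e : (W × W) ≃ₗ[k] (W × W) :=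
    LinearEquiv.prodCongr (LinearEquiv.refl k W) (LinearEquiv.neg k)
  have h1 := trace_of_comm T (-T) e (by
    rintro ⟨x, y⟩
    show -(T (x, -y)) = e (T (x, y))
    rw [hT, hT]
    apply Prod.ext
    · show -(A (-y)) = A y
      rw [map_neg, neg_neg]
    · rfl)
  rw [map_neg] at h1
  have h2 : (2 : k) * LinearMap.trace k (W × W) T = 0 := by linear_combination -h1
  rcases mul_eq_zero.1 h2 with h | h
  · exact absurd h two_ne_zero
  · exact h

end swap

section split

variable {P : Type} [Group P]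

theorem sq_mem {C : Subgroup P} {s : P} (hs : s ∉ C) (hC : ∀ g : P, g ∈ C ∨ s⁻¹ * g ∈ C) :
    s * s ∈ C := by
  rcases hC (s * s) with h | h
  · exact h
  · rw [inv_mul_cancel_left] at h
    exact absurd h hs

theorem conj_mem {C : Subgroup P} {s : P} (hs : s ∉ C) (hC : ∀ g : P, g ∈ C ∨ s⁻¹ * g ∈ C)
    {c : P} (hc : c ∈ C) : s⁻¹ * c * s ∈ C := by
  rcases hC (s⁻¹ * c * s) with h | h
  · exact h
  · exfalso
    apply hs
    have h1 : s = c⁻¹ * (s * s) * (s⁻¹ * (s⁻¹ * c * s)) := by group
    rw [h1]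
    exact C.mul_mem (C.mul_mem (C.inv_mem hc) (sq_mem hs hC)) h

theorem conj_mem' {C : Subgroup P} {s : P} (hs : s ∉ C) (hC : ∀ g : P, g ∈ C ∨ s⁻¹ * g ∈ C)
    {c : P} (hc : c ∈ C) : s * c * s⁻¹ ∈ C := by
  have h1 : s * c * s⁻¹ = (s * s) * (s⁻¹ * c * s) * (s * s)⁻¹ := by group
  rw [h1]
  exact C.mul_mem (C.mul_mem (sq_mem hs hC) (conj_mem hs hC hc)) (C.inv_mem (sq_mem hs hC))

/-- the group is the union of two cosets -/
noncomputable def two {C : Subgroup P} {s : P} (hs : s ∉ C)
    (hC : ∀ g : P, g ∈ C ∨ s⁻¹ * g ∈ C) : C ⊕ C ≃ P :=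
  Equiv.ofBijective (Sum.elim (fun c => (c : P)) (fun c => s * (c : P))) (by
    constructor
    · rintro (a | a) (b | b) hab
      · simp only [Sum.elim_inl] at hab
        rw [Subtype.ext hab]
      · exfalso
        simp only [Sum.elim_inl, Sum.elim_inr] at hab
        apply hs
        have : s = (a : P) * (b : P)⁻¹ := by rw [hab]; group
        rw [this]
        exact C.mul_mem a.2 (C.inv_mem b.2)
      · exfalso
        simp only [Sum.elim_inl, Sum.elim_inr] at hab
        apply hs
        have : s = (b : P) * (a : P)⁻¹ := by rw [← hab]; group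
        rw [this]
        exact C.mul_mem b.2 (C.inv_mem a.2)
      · simp only [Sum.elim_inr] at hab
        rw [Subtype.ext (mul_left_cancel hab)]
    · intro g
      rcases hC g with h | h
      · exact ⟨Sum.inl ⟨g, h⟩, rfl⟩
      · exact ⟨Sum.inr ⟨s⁻¹ * g, h⟩, mul_inv_cancel_left s g⟩)

theorem sum_split [Fintype P] {C : Subgroup P} {s : P} (hs : s ∉ C) (hC : ∀ g : P, g ∈ C ∨ s⁻¹ * g ∈ C)
    {A : Type} [AddCommMonoid A] (F : P → A) :
    ∑ g : P, F g = ∑ c : C, F c + ∑ c : C, F (s * c) := by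
  rw [← (two hs hC).sum_comp F, Fintype.sum_sum_type]
  rfl

theorem card_split [Finite P] {C : Subgroup P} {s : P} (hs : s ∉ C) (hC : ∀ g : P, g ∈ C ∨ s⁻¹ * g ∈ C) :
    Nat.card P = 2 * Nat.card C := by
  rw [← Nat.card_congr (two hs hC), Nat.card_sum, two_mul]

/-- conjugation on the subgroup -/
def cj {C : Subgroup P} {s : P} (hs : s ∉ C) (hC : ∀ g : P, g ∈ C ∨ s⁻¹ * g ∈ C) : C ≃ C where
  toFun c := ⟨s⁻¹ * c * s, conj_mem hs hC c.2⟩
  invFun c := ⟨s * c * s⁻¹, conj_mem' hs hC c.2⟩
  left_inv c := by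
    apply Subtype.ext
    show s * (s⁻¹ * c * s) * s⁻¹ = c
    group
  right_inv c := by
    apply Subtype.ext
    show s⁻¹ * (s * c * s⁻¹) * s = c
    group

end split

section rep

variable {P k V : Type} [Group P] [Field k] [CharZero k] [AddCommGroup V] [Module k V]
  [FiniteDimensional k V] (r : P →* (V →ₗ[k] V)) (C : Subgroup P) (s : P)
  (W : Submodule k V) (h : ∀ g : C, ∀ x ∈ W, (r.comp C.subtype) g x ∈ W)

omit [CharZero k] [FiniteDimensional k V] in
theorem rr (g g' : P) (x : V) : r g (r g' x) = r (g * g') x := by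
  rw [map_mul]
  rfl

/-- the sum of the subspace and its translate -/
noncomputable def eqv (hW : IsCompl W (W.map (r s))) : (W × W) ≃ₗ[k] V :=
  LinearEquiv.ofBijective (W.subtype.coprod ((r s).comp W.subtype)) (by
    constructor
    · rw [injective_iff_map_eq_zero]
      rintro ⟨x, y⟩ hxy
      have h1 : (x : V) + r s (y : V) = 0 := hxy
      have h2 : (x : V) ∈ W ⊓ W.map (r s) := by
        refine ⟨x.2, ?_⟩
        have h3 : (x : V) = r s (-(y : V)) := by
          rw [map_neg]
          exact eq_neg_of_add_eq_zero_left h1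
        rw [h3]
        exact ⟨_, W.neg_mem y.2, rfl⟩
      rw [hW.inf_eq_bot, Submodule.mem_bot] at h2
      rw [h2, zero_add] at h1
      have h4 : (y : V) = r s⁻¹ (r s (y : V)) := by
        rw [rr, inv_mul_cancel, map_one]
        rfl
      rw [h1, map_zero] at h4
      apply Prod.ext
      · exact Subtype.ext h2
      · exact Subtype.ext h4
    · intro v
      have h1 : v ∈ W ⊔ W.map (r s) := by
        rw [hW.sup_eq_top]
        exact Submodule.mem_top
      obtain ⟨x, hx, z, ⟨y, hy, rfl⟩, rfl⟩ := Submodule.mem_sup.1 h1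
      exact ⟨(⟨x, hx⟩, ⟨y, hy⟩), rfl⟩)

omit [CharZero k] [FiniteDimensional k V] in
theorem eqv_apply (hW : IsCompl W (W.map (r s))) (x y : W) :
    eqv r s W hW (x, y) = (x : V) + r s (y : V) := rfl

omit [CharZero k] in
theorem fr (hW : IsCompl W (W.map (r s))) : Module.finrank k V = 2 * Module.finrank k W := by
  rw [← (eqv r s W hW).finrank_eq, Module.finrank_prod, two_mul]

variable (hs : s ∉ C) (hC : ∀ g : P, g ∈ C ∨ s⁻¹ * g ∈ C)

omit [CharZero k] [FiniteDimensional k V] in
theorem on_C (hW : IsCompl W (W.map (r s))) (c : C) (p : W × W) :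
    r (c : P) (eqv r s W hW p) = eqv r s W hW
      ((LinearMap.prodMap (subR (r.comp C.subtype) W h c)
        (subR (r.comp C.subtype) W h (cj hs hC c))) p) := by
  obtain ⟨x, y⟩ := p
  rw [LinearMap.prodMap_apply, eqv_apply, eqv_apply, map_add, rr]
  congr 1
  show r ((c : P) * s) (y : V) = r s (r (s⁻¹ * c * s) (y : V))
  rw [rr]
  congr 2
  group

omit [CharZero k] [FiniteDimensional k V] in
theorem on_s (hW : IsCompl W (W.map (r s))) (c : C) (p : W × W) :
    r (s * (c : P)) (eqv r s W hW p) = eqv r s W hW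
      ((LinearMap.prodMap (subR (r.comp C.subtype) W h
        (⟨s * s, sq_mem hs hC⟩ * (cj hs hC c)))
        (subR (r.comp C.subtype) W h c) ∘ₗ swp k W) p) := by
  obtain ⟨x, y⟩ := p
  have h1 : ((LinearMap.prodMap (subR (r.comp C.subtype) W h
        (⟨s * s, sq_mem hs hC⟩ * (cj hs hC c)))
        (subR (r.comp C.subtype) W h c) ∘ₗ swp k W) (x, y)) =
      (subR (r.comp C.subtype) W h (⟨s * s, sq_mem hs hC⟩ * (cj hs hC c)) y,
        subR (r.comp C.subtype) W h c x) := rfl
  rw [h1, eqv_apply, eqv_apply, map_add, rr]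
  have h2 : r (s * (c : P)) (x : V) = r s (r (c : P) (x : V)) := by rw [rr]
  have h3 : r (s * (c : P) * s) (y : V) = r (s * s * (s⁻¹ * c * s)) (y : V) := by
    congr 2
    group
  rw [h2, h3, add_comm]
  rfl

theorem det_C (hW : IsCompl W (W.map (r s))) (c : C) :
    LinearMap.det (r (c : P)) = LinearMap.det (subR (r.comp C.subtype) W h c) *
      LinearMap.det (subR (r.comp C.subtype) W h (cj hs hC c)) := by
  rw [det_of_comm _ _ (eqv r s W hW) (on_C r C s W h hs hC hW c), LinearMap.det_prodMap]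

theorem trace_C (hW : IsCompl W (W.map (r s))) (c : C) :
    LinearMap.trace k V (r (c : P)) = LinearMap.trace k W (subR (r.comp C.subtype) W h c) +
      LinearMap.trace k W (subR (r.comp C.subtype) W h (cj hs hC c)) := by
  rw [trace_of_comm _ _ (eqv r s W hW) (on_C r C s W h hs hC hW c), LinearMap.trace_prodMap']

include h hs hC in
theorem trace_s (hW : IsCompl W (W.map (r s))) (c : C) :
    LinearMap.trace k V (r (s * (c : P))) = 0 := by
  rw [trace_of_comm _ _ (eqv r s W hW) (on_s r C s W h hs hC hW c)]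
  exact trace_swp k W _ (subR (r.comp C.subtype) W h
        (⟨s * s, sq_mem hs hC⟩ * (cj hs hC c))) (subR (r.comp C.subtype) W h c) (fun x y => rfl)

theorem det_s (hW : IsCompl W (W.map (r s))) :
    LinearMap.det (r s) = LinearMap.det (subR (r.comp C.subtype) W h ⟨s * s, sq_mem hs hC⟩) *
      (-1) ^ Module.finrank k W := by
  have h1 := det_of_comm _ _ (eqv r s W hW) (on_s r C s W h hs hC hW 1)
  have h2 : s * ((1 : C) : P) = s := by
    rw [Subgroup.coe_one, mul_one]
  have h3 : cj hs hC 1 = 1 := by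
    apply Subtype.ext
    show s⁻¹ * 1 * s = 1
    group
  rw [h2, h3, mul_one, LinearMap.det_comp, LinearMap.det_prodMap, map_one, map_one,
    mul_one, det_swp] at h1
  exact h1

end rep

/-- GIND: induction from a subgroup of index two. -/
theorem gind (hD : ST_DSP) : ST_GIND := by
  intro Ω P _ _ _ _ _ _ w π hB k V _ _ _ _ _ r C s hs hC W h hW hG
  obtain ⟨_, hdI, _, hcj, _, hnm⟩ := hD Ω P w π hB
  obtain ⟨Dw, sw, j, hDw, hdet, hsw, hwD⟩ := hG
  set ρ := subR (r.comp C.subtype) W h with hρ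
  set n := Module.finrank k W with hn
  set ν := nm C π with hν
  set η := s • ν - ν with hη
  set T : ℤ := ∑ c : C, dI w π (s * c) with hT
  have hwη : w η = ex T := hnm C s hs
  have hη0 : η ≠ 0 := by
    intro h0
    rw [h0, map_zero] at hwη
    exact ex_ne_zero _ hwη.symm
  have hνC : Fx C ν := nm_fixed C π
  have hsν : Fx C (s • ν) := by
    intro c hc
    have h1 := hνC (s⁻¹ * c * s) (conj_mem hs hC hc)
    calc c • s • ν = s • (s⁻¹ * c * s) • ν := by
          rw [smul_smul, smul_smul]
          congr 1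
          group
      _ = s • ν := by rw [h1]
  have hηC : Fx C η := hsν.sub hνC
  have hηs : s • η = -η := by
    have h1 := hνC (s * s) (sq_mem hs hC)
    rw [hη, smul_sub, smul_smul, h1]
    ring
  have hint : ∀ (g : P) (u : ℤ), g • (u : Ω) = (u : Ω) := by
    intro g u
    exact map_intCast (MulSemiringAction.toRingHom P Ω g) u
  have hu : ∀ c : C, ∃ u : ℤˣ, LinearMap.det (ρ c) = ((u : ℤ) : k) ∧
      (c : P) • Dw = ((u : ℤ) : Ω) * Dw := by
    intro c
    rcases hdet c with ⟨h1, h2⟩ | ⟨h1, h2⟩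
    · exact ⟨1, by rw [h1]; simp, by
        have h3 : (c : P) • Dw = Dw := h2
        rw [h3]; simp⟩
    · exact ⟨-1, by rw [h1]; simp, by
        have h3 : (c : P) • Dw = -Dw := h2
        rw [h3]; simp⟩
  set D := Dw * (s • Dw) * η ^ n with hDdef
  have hQmul : ∀ g g' : P, (∃ u : ℤˣ, LinearMap.det (r g) = ((u : ℤ) : k) ∧
      g • D = ((u : ℤ) : Ω) * D) → (∃ u : ℤˣ, LinearMap.det (r g') = ((u : ℤ) : k) ∧
      g' • D = ((u : ℤ) : Ω) * D) → ∃ u : ℤˣ, LinearMap.det (r (g * g')) = ((u : ℤ) : k) ∧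
      (g * g') • D = ((u : ℤ) : Ω) * D := by
    rintro g g' ⟨u, h1, h2⟩ ⟨u', h3, h4⟩
    refine ⟨u * u', ?_, ?_⟩
    · rw [map_mul, map_mul, h1, h3]
      push_cast
      ring
    · rw [← smul_smul, h4, smul_mul', h2, hint]
      push_cast
      ring
  have hQC : ∀ c : C, ∃ u : ℤˣ, LinearMap.det (r (c : P)) = ((u : ℤ) : k) ∧
      (c : P) • D = ((u : ℤ) : Ω) * D := by
    intro c
    obtain ⟨u, h1, h2⟩ := hu c
    obtain ⟨u', h3, h4⟩ := hu (cj hs hC c)
    refine ⟨u * u', ?_, ?_⟩
    · rw [det_C r C s W h hs hC hW c, ← hρ, h1, h3]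
      push_cast
      ring
    · have h5 : (c : P) • s • Dw = ((u' : ℤ) : Ω) * s • Dw := by
        have h6 : (c : P) • s • Dw = s • ((cj hs hC c : C) : P) • Dw := by
          rw [smul_smul, smul_smul]
          congr 1
          show (c : P) * s = s * (s⁻¹ * c * s)
          group
        rw [h6, h4, smul_mul', hint]
      rw [hDdef, smul_mul', smul_mul', smul_pow', hηC c c.2, h2, h5]
      push_cast
      ring
  have hQs : ∃ u : ℤˣ, LinearMap.det (r s) = ((u : ℤ) : k) ∧
      s • D = ((u : ℤ) : Ω) * D := by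
    obtain ⟨u, h1, h2⟩ := hu ⟨s * s, sq_mem hs hC⟩
    refine ⟨u * (-1) ^ n, ?_, ?_⟩
    · rw [det_s r C s W h hs hC hW, ← hρ, h1]
      push_cast
      ring
    · have h5 : s • s • Dw = ((u : ℤ) : Ω) * Dw := by
        rw [smul_smul]
        exact h2
      rw [hDdef, smul_mul', smul_mul', smul_pow', hηs, h5, neg_pow η n]
      push_cast
      ring
  have hQ : ∀ g : P, ∃ u : ℤˣ, LinearMap.det (r g) = ((u : ℤ) : k) ∧
      g • D = ((u : ℤ) : Ω) * D := by
    intro g
    rcases hC g with h1 | h1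
    · exact hQC ⟨g, h1⟩
    · have h2 := hQmul s (s⁻¹ * g) hQs (hQC ⟨s⁻¹ * g, h1⟩)
      rw [mul_inv_cancel_left] at h2
      exact h2
  refine ⟨D, 2 * sw + 2 * n * T, j, ?_, ?_, ?_, ?_⟩
  · rw [hDdef]
    refine mul_ne_zero (mul_ne_zero hDw ?_) (pow_ne_zero _ hη0)
    rwa [smul_ne_zero_iff_ne]
  · intro g
    obtain ⟨u, h1, h2⟩ := hQ g
    rcases Int.units_eq_one_or u with h3 | h3
    · left
      rw [h3] at h1 h2
      constructor
      · rw [h1]; simp
      · rw [h2]; simp
    · right
      rw [h3] at h1 h2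
      constructor
      · rw [h1]; simp
      · rw [h2]; simp
  · rw [sum_split hs hC]
    have e1 : ∑ c : C, ((Module.finrank k V : k) - LinearMap.trace k V (r (s * (c : P)))) *
        (dI w π (s * (c : P)) : k) = 2 * n * (T : k) := by
      rw [hT]
      push_cast
      rw [Finset.mul_sum]
      apply Finset.sum_congr rfl
      intro c _
      rw [trace_s r C s W h hs hC hW c, fr r s W hW, ← hn]
      push_cast
      ring
    have e2 : ∑ c : C, ((Module.finrank k V : k) - LinearMap.trace k V (r (c : P))) *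
        (dI w π (c : P) : k) =
        ∑ c : C, ((n : k) - LinearMap.trace k W (ρ c)) * (dI w π (c : P) : k) +
        ∑ c : C, ((n : k) - LinearMap.trace k W (ρ (cj hs hC c))) *
          (dI w π ((cj hs hC c : C) : P) : k) := by
      rw [← Finset.sum_add_distrib]
      apply Finset.sum_congr rfl
      intro c _
      have h1 : dI w π ((cj hs hC c : C) : P) = dI w π (c : P) := by
        have h2 := hcj (c : P) s⁻¹
        rw [inv_inv] at h2
        exact h2
      rw [trace_C r C s W h hs hC hW c, fr r s W hW, ← hn, ← hρ, h1]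
      push_cast
      ring
    have e3 : ∑ c : C, ((n : k) - LinearMap.trace k W (ρ (cj hs hC c))) *
          (dI w π ((cj hs hC c : C) : P) : k) =
        ∑ c : C, ((n : k) - LinearMap.trace k W (ρ c)) * (dI w π (c : P) : k) :=
      Equiv.sum_comp (cj hs hC)
        (fun c : C => ((n : k) - LinearMap.trace k W (ρ c)) * (dI w π (c : P) : k))
    have e4 : (sw : k) = ∑ c : C, ((n : k) - LinearMap.trace k W (ρ c)) *
        (dI w π (c : P) : k) := hsw
    rw [e1, e2, e3, ← e4]
    push_cast
    ring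
  · have h1 : w D = w Dw * w Dw * ex T ^ n := by
      rw [hDdef, map_mul, map_mul, map_pow, hB.inv, hwη]
    have h2 : w D ^ 2 = w Dw ^ 2 * w Dw ^ 2 * (ex T ^ n) ^ 2 := by
      rw [h1, mul_pow, mul_pow]
    rw [h2, hwD, ex_pow, ex_pow, ← ex_add, ← ex_add, card_split hs hC]
    congr 1
    push_cast
    ring

end PQ87
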