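import Pool.Agent.Helper94.PQ.StmtsT

/-!
# The quotient by a normal subgroup, acting on the fixed field
-/

set_option autoImplicit false

open scoped Classical

namespace PQ87

open PQ BKA Pool.Agent.Helper13.Swan

section

variable {Ω P : Type} [Field Ω] [Group P] [MulSemiringAction P Ω] (N : Subgroup P)

/-- the fixed field -/
abbrev FF : Subfield Ω := FixedPoints.subfield N Ω

theorem mem_FF (x : Ω) : x ∈ FF (Ω := Ω) N ↔ Fx N x := by
  constructor
  · intro h τ hτ
    exact h ⟨τ, hτ⟩
  · intro h τ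
    exact h τ τ.2

variable [N.Normal]

theorem smul_FF (g : P) {x : Ω} (hx : x ∈ FF (Ω := Ω) N) : g • x ∈ FF (Ω := Ω) N := by
  rw [mem_FF] at hx ⊢
  intro τ hτ
  have h1 : g⁻¹ * τ * g ∈ N := by
    have := Subgroup.Normal.conj_mem (H := N) inferInstance τ hτ g⁻¹
    rwa [inv_inv] at this
  calc τ • g • x = g • (g⁻¹ * τ * g) • x := by
        rw [smul_smul, smul_smul]
        congr 1
        group
    _ = g • x := by rw [hx _ h1]

/-- the automorphism of the fixed field -/
def gact (g : P) : FF (Ω := Ω) N ≃+* FF (Ω := Ω) N where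
  toFun x := ⟨g • (x : Ω), smul_FF N g x.2⟩
  invFun x := ⟨g⁻¹ • (x : Ω), smul_FF N g⁻¹ x.2⟩
  left_inv x := by
    apply Subtype.ext
    show g⁻¹ • g • (x : Ω) = x
    rw [inv_smul_smul]
  right_inv x := by
    apply Subtype.ext
    show g • g⁻¹ • (x : Ω) = x
    rw [smul_inv_smul]
  map_mul' x y := by
    apply Subtype.ext
    show g • ((x : Ω) * y) = (g • (x : Ω)) * (g • (y : Ω))
    rw [smul_mul']
  map_add' x y := by
    apply Subtype.ext
    show g • ((x : Ω) + y) = (g • (x : Ω)) + (g • (y : Ω))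
    rw [smul_add]

/-- the homomorphism to the automorphisms of the fixed field -/
def gh : P →* RingAut (FF (Ω := Ω) N) where
  toFun := gact N
  map_one' := by
    ext x
    show (1 : P) • (x : Ω) = x
    rw [one_smul]
  map_mul' a b := by
    ext x
    show (a * b) • (x : Ω) = a • b • (x : Ω)
    rw [mul_smul]

/-- the homomorphism from the quotient -/
def qh : P ⧸ N →* RingAut (FF (Ω := Ω) N) :=
  QuotientGroup.lift N (gh N) (by
    intro g hg
    ext x
    exact (mem_FF N (x : Ω)).1 x.2 g hg)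

/-- the action of the quotient -/
abbrev actQ : MulSemiringAction (P ⧸ N) (FF (Ω := Ω) N) :=
  MulSemiringAction.compHom (FF (Ω := Ω) N) (qh (Ω := Ω) N)

variable [Fintype P] [FaithfulSMul P Ω] {w : Valuation Ω (WithZero (Multiplicative ℤ))} {π : Ω}
  (hB : Base P w π)

omit [N.Normal] in
include hB in
theorem root_ex (x : FF (Ω := Ω) N) :
    ∃ y : WithZero (Multiplicative ℤ), w (x : Ω) = y ^ Nat.card N := by
  by_cases h0 : (x : Ω) = 0
  · refine ⟨0, ?_⟩
    rw [h0, map_zero, zero_pow Nat.card_pos.ne']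
  · obtain ⟨k, hk⟩ := hB.val_fixed N ((mem_FF N (x : Ω)).1 x.2) h0
    refine ⟨ex k, ?_⟩
    rw [hk, ex_pow]

omit [N.Normal] in
theorem pinj {P : Type} [Group P] [Fintype P] (N : Subgroup P) {a b : WithZero (Multiplicative ℤ)} (h : a ^ Nat.card N = b ^ Nat.card N) :
    a = b :=
  (pow_left_inj₀ zero_le zero_le Nat.card_pos.ne').1 h

/-- the value on the fixed field -/
noncomputable def wf (x : FF (Ω := Ω) N) : WithZero (Multiplicative ℤ) :=
  Classical.choose (root_ex N hB x)

omit [N.Normal] in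
theorem wf_spec (x : FF (Ω := Ω) N) : w (x : Ω) = wf N hB x ^ Nat.card N :=
  Classical.choose_spec (root_ex N hB x)

/-- the valuation on the fixed field -/
noncomputable def wq : Valuation (FF (Ω := Ω) N) (WithZero (Multiplicative ℤ)) where
  toFun := wf N hB
  map_zero' := by
    apply pinj N
    rw [← wf_spec, zero_pow Nat.card_pos.ne']
    exact map_zero w
  map_one' := by
    apply pinj N
    rw [← wf_spec, one_pow]
    exact map_one w
  map_mul' x y := by
    apply pinj N
    rw [← wf_spec, mul_pow, ← wf_spec, ← wf_spec]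
    exact map_mul w _ _
  map_add_le_max' x y := by
    have h1 : w ((x : Ω) + y) ≤ max (w (x : Ω)) (w (y : Ω)) := w.map_add _ _
    have h2 : w (x : Ω) = wf N hB x ^ Nat.card N := wf_spec N hB x
    have h3 : w (y : Ω) = wf N hB y ^ Nat.card N := wf_spec N hB y
    have h4 : w ((x : Ω) + y) = wf N hB (x + y) ^ Nat.card N := wf_spec N hB (x + y)
    rcases le_max_iff.1 h1 with h5 | h5
    · apply le_max_of_le_left
      rw [h2, h4] at h5
      exact (pow_le_pow_iff_left₀ zero_le zero_le Nat.card_pos.ne').1 h5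
    · apply le_max_of_le_right
      rw [h3, h4] at h5
      exact (pow_le_pow_iff_left₀ zero_le zero_le Nat.card_pos.ne').1 h5

omit [N.Normal] in
theorem wq_spec (x : FF (Ω := Ω) N) : w (x : Ω) = wq N hB x ^ Nat.card N := wf_spec N hB x

end

/-- QUO: the quotient by a normal subgroup, acting on the fixed field. -/
theorem quo (hD : ST_DSP) : ST_QUO := by
  intro Ω P _ _ _ _ _ _ w π hB N _
  obtain ⟨_, hdI, _, _, _, hnm⟩ := hD Ω P w π hB
  let act : MulSemiringAction (P ⧸ N) (FF (Ω := Ω) N) := actQ N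
  have hact : ∀ (g : P) (x : FF (Ω := Ω) N), (((g : P ⧸ N) • x : FF (Ω := Ω) N) : Ω) = g • (x : Ω) :=
    fun g x => rfl
  set π' : FF (Ω := Ω) N := ⟨nm N π, (mem_FF N _).2 (nm_fixed N π)⟩ with hπ'
  have hfa : FaithfulSMul (P ⧸ N) (FF (Ω := Ω) N) := by
    constructor
    intro q q' h
    obtain ⟨g, rfl⟩ := QuotientGroup.mk_surjective q
    obtain ⟨g', rfl⟩ := QuotientGroup.mk_surjective q'
    have h1 := congrArg (fun x : FF (Ω := Ω) N => (x : Ω)) (h π')
    simp only [hact] at h1
    symm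
    rw [QuotientGroup.eq]
    by_contra hc
    have h2 := hnm N (g'⁻¹ * g) hc
    have h3 : (g'⁻¹ * g) • nm N π = nm N π := by
      rw [← smul_smul, inv_smul_eq_iff]
      exact h1
    rw [h3, sub_self, map_zero] at h2
    exact ex_ne_zero _ h2.symm
  have hbase : Base (P ⧸ N) (wq N hB) π' := by
    constructor
    · intro q x
      obtain ⟨g, rfl⟩ := QuotientGroup.mk_surjective q
      apply pinj N
      rw [← wq_spec, ← wq_spec, hact, hB.inv]
    · apply pinj N
      rw [← wq_spec, ex_pow, mul_one]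
      exact hB.val_nm_pi N
    · intro x hx
      have h1 : w (x : Ω) ≤ 1 := by
        rw [wq_spec N hB]
        exact pow_le_one₀ zero_le hx
      obtain ⟨y, hy, hxy⟩ := hB.res (x : Ω) h1
      refine ⟨⟨y, (mem_FF N y).2 (fun τ _ => hy τ)⟩, ?_, ?_⟩
      · intro q
        obtain ⟨g, rfl⟩ := QuotientGroup.mk_surjective q
        apply Subtype.ext
        rw [hact]
        exact hy g
      · by_contra hc
        push Not at hc
        have h2 : w ((x : Ω) - y) = wq N hB
            (x - (⟨y, (mem_FF N y).2 (fun τ _ => hy τ)⟩ : FF (Ω := Ω) N)) ^ Nat.card N :=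
          wq_spec N hB (x - (⟨y, (mem_FF N y).2 (fun τ _ => hy τ)⟩ : FF (Ω := Ω) N))
        rw [h2] at hxy
        exact absurd hxy (not_lt.2 (one_le_pow₀ hc))
  refine ⟨FF (Ω := Ω) N, inferInstance, inferInstance, act, hfa, wq N hB, π', hbase,
    (FF (Ω := Ω) N).subtype, fun g x => rfl, fun x => wq_spec N hB x, ?_⟩
  intro g hg
  have h1 := hnm N g hg
  have h2 : w (g • nm N π - nm N π) =
      wq N hB ((g : P ⧸ N) • π' - π') ^ Nat.card N :=
    wq_spec N hB ((g : P ⧸ N) • π' - π')
  have h3 : wq N hB ((g : P ⧸ N) • π' - π') ≠ 0 := by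
    intro h0
    rw [h0, zero_pow Nat.card_pos.ne', h1] at h2
    exact ex_ne_zero _ h2
  have h4 : wq N hB ((g : P ⧸ N) • π' - π') = ex (dI (wq N hB) π' (g : P ⧸ N)) := by
    unfold dI ex
    rw [neg_neg, WithZero.exp_log h3]
  rw [h1, h4, ex_pow, ex_inj] at h2
  exact h2.symm

end PQ87
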